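import Pool.Agent.Y525.Frenet.Frame

/-!
# The length of the Frenet frame of a nondegenerate closed curve exceeds `2π μ(n)`, `n ≥ 4`

The definitions are in `Pool/Agent/Y525/Frenet/Defs.lean`. As `μ(n) = 1` for `n ≥ 4`, this is the
strict Fenchel inequality for the first vector of the frame.
-/

namespace Pool.Agent.Results.MP_f07be6_gt.FrameLength

open Pool.Agent.Y525.Frenet

/-- For `n ≥ 4` the Frenet frame of every nondegenerate closed curve in `ℝⁿ` is longer than
`2π μ(n)`. -/
theorem result (n : ℕ) (hn : 4 ≤ n) (γ : ℝ → EuclideanSpace ℝ (Fin n)) (hγ : IsClosedCurve γ)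
    (hN : IsNondegenerate γ) : ∃ m : ℕ, IsMu n m ∧ 2 * Real.pi * m < frameLength γ :=
  ⟨1, isMu_one n hn, by simpa using two_pi_lt_frameLength (by omega) hγ hN⟩

end Pool.Agent.Results.MP_f07be6_gt.FrameLength
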