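import Pool.Agent.Y525.Frenet.Mu

/-!
# `μ(n) = 1` for every `n ≥ 4`

The definitions are in `Pool/Agent/Y525/Frenet/Defs.lean`. Idea of the proof: for a system `g` of
`k = n - 2` periodic functions such that the Wronskian of `g''' + g'` has no zero, the curve
`(cos t, sin t, ε g(t))` is nondegenerate. For even `k` one takes `cos lt`, `sin lt` with different
`l ≥ 2`; for `k = 3` one integrates a closed nondegenerate space curve traversed twice (this kills
the Fourier modes `0, ±1`); adding `cos lt`, `sin lt` with large `l` gives all `k ≥ 2`.
-/

namespace Pool.Agent.Results.MP_f07be6_gt.MuEqualsOne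

open Pool.Agent.Y525.Frenet

/-- `μ(n) = 1` for every `n ≥ 4`: arbitrarily `C^∞`-close to the plane unit circle traversed once
there are nondegenerate closed curves in `ℝⁿ`. -/
theorem result (n : ℕ) (hn : 4 ≤ n) : IsMu n 1 :=
  isMu_one n hn

end Pool.Agent.Results.MP_f07be6_gt.MuEqualsOne
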